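import Mathlib
import Pool.Agent.K3h88.LCM.Stm

/-!
# Brick L2: cocycles on a locally constructible complex are trivial
-/

set_option autoImplicit false

namespace Pool.Agent.K3h51.LCM

open Finset Pool.Agent.K3h88.LCM

universe u v

/-- a chain which leaves a set has a step leaving it -/
theorem exists_step {α : Type*} {r : α → α → Prop} {P : α → Prop} {a b : α}
    (h : Relation.ReflTransGen r a b) (ha : P a) (hb : ¬ P b) :
    ∃ c d, P c ∧ ¬ P d ∧ r c d := by
  induction h with
  | refl => exact absurd ha hb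
  | @tail c d hac hcd ih =>
    by_cases hc : P c
    · exact ⟨c, d, hc, hb, hcd⟩
    · exact ih hc

section

variable {V : Type u} [DecidableEq V] {H : Type v} [Group H]

/-- `h` trivialises the cocycle `x` on `A` -/
def Good (x : V → V → H) (A : Finset V) (h : V → H) : Prop :=
  ∀ a ∈ A, ∀ b ∈ A, x a b = (h a)⁻¹ * h b

theorem good_exists (x : V → V → H) (A : Finset V) (hx : Rel x A) (hA : A.Nonempty) :
    ∃ h, Good x A h := by
  obtain ⟨a0, ha0⟩ := hA
  refine ⟨fun a => x a0 a, fun a ha b hb => ?_⟩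
  have := hx a0 ha0 a ha b hb
  show x a b = (x a0 a)⁻¹ * x a0 b
  rw [← this]; group

theorem Good.mul {x : V → V → H} {A : Finset V} {h : V → H} (hg : Good x A h) (c : H) :
    Good x A (fun v => c * h v) := by
  intro a ha b hb
  rw [hg a ha b hb]; group

/-- two trivialisations which agree at a common point agree at all common points -/
theorem Good.eq {x : V → V → H} {A B : Finset V} {h k : V → H} (hA : Good x A h)
    (hB : Good x B k) {p q : V} (hpA : p ∈ A) (hpB : p ∈ B) (hqA : q ∈ A) (hqB : q ∈ B)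
    (e : h p = k p) : h q = k q := by
  have h1 := hA p hpA q hqA
  have h2 := hB p hpB q hqB
  rw [h1, e] at h2
  exact mul_left_cancel h2

theorem same_eq {F S : Finset (Finset V)} {s A B : Finset V} (hAB : Same F S s A B)
    {f : Finset V → V → H}
    (hS : ∀ τ ∈ S, ∀ A ∈ F, ∀ B ∈ F, τ ⊆ A → τ ⊆ B → ∀ p ∈ τ, f A p = f B p) :
    ∀ p ∈ s, f A p = f B p := by
  intro p hp
  induction hAB with
  | refl => rfl
  | @tail C D _ hCD ih =>
    obtain ⟨hC, hD, τ, hτ, hs, hτC, hτD⟩ := hCD
    rw [ih]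
    exact hS τ hτ C hC D hD hτC hτD p (hs hp)

theorem tree_step (x : V → V → H) (F T : Finset (Finset V)) (hpure : ∀ A ∈ F, A.card = 5)
    (hTin : T ⊆ tets F 2) (hconn : ∀ A ∈ F, ∀ B ∈ F, Same F T ∅ A B)
    (hx : ∀ A ∈ F, Rel x A) (hne : F.Nonempty) (n : ℕ) (hn : n < F.card) :
    ∃ S ⊆ F, ∃ T' ⊆ T, S.card = n + 1 ∧ T'.card = n ∧
      (∀ τ ∈ T', ∀ A ∈ F, τ ⊆ A → A ∈ S) ∧
      ∃ f : Finset V → V → H, (∀ A ∈ F, Good x A (f A)) ∧
        ∀ τ ∈ T', ∀ A ∈ F, ∀ B ∈ F, τ ⊆ A → τ ⊆ B → ∀ p ∈ τ, f A p = f B p := by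
  classical
  induction n with
  | zero =>
    obtain ⟨A0, hA0⟩ := hne
    have hex : ∀ A : Finset V, ∃ h : V → H, A ∈ F → Good x A h := by
      intro A
      by_cases hA : A ∈ F
      · obtain ⟨h, hh⟩ := good_exists x A (hx A hA)
          (by rw [← Finset.card_pos, hpure A hA]; norm_num)
        exact ⟨h, fun _ => hh⟩
      · exact ⟨fun _ => 1, fun h => absurd h hA⟩
    choose f hf using hex
    refine ⟨{A0}, by simpa using hA0, ∅, by simp, by simp, by simp, by simp, f, hf, by simp⟩
  | succ n ih =>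
    obtain ⟨S, hSF, T', hT', hSc, hTc, hcl, f, hf, hfT⟩ := ih (by omega)
    -- a facet outside `S`
    have hlt : S.card < F.card := by omega
    obtain ⟨B0, hB0F, hB0S⟩ : ∃ B ∈ F, B ∉ S := by
      by_contra hcon
      push Not at hcon
      exact absurd (Finset.card_le_card (fun B hB => hcon B hB)) (by omega)
    obtain ⟨A0, hA0S⟩ : S.Nonempty := by
      rw [← Finset.card_pos]; omega
    obtain ⟨A, B, hAS, hBS, hAF, hBF, τ, hτT, -, hτA, hτB⟩ :=
      exists_step (P := fun A => A ∈ S) (hconn A0 (hSF hA0S) B0 hB0F) hA0S hB0S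
    have hτ2 := hTin hτT
    rw [tets, Finset.mem_filter] at hτ2
    obtain ⟨hτF, hτ4, hτ2⟩ := hτ2
    have hAB : A ≠ B := by rintro rfl; exact hBS hAS
    -- the only facets containing `τ` are `A` and `B`
    have honly : ∀ C ∈ F, τ ⊆ C → C = A ∨ C = B := by
      intro C hC hτC
      by_contra hcon
      push Not at hcon
      have h3 : ({A, B, C} : Finset (Finset V)).card = 3 := by
        rw [Finset.card_insert_of_notMem, Finset.card_insert_of_notMem, Finset.card_singleton]
        · simp [Ne.symm hcon.2]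
        · simp [hAB, Ne.symm hcon.1]
      have hsub : ({A, B, C} : Finset (Finset V)) ⊆ F.filter (fun A => τ ⊆ A) := by
        intro D hD
        simp only [Finset.mem_insert, Finset.mem_singleton] at hD
        rw [Finset.mem_filter]
        rcases hD with rfl | rfl | rfl
        · exact ⟨hAF, hτA⟩
        · exact ⟨hBF, hτB⟩
        · exact ⟨hC, hτC⟩
      have := Finset.card_le_card hsub
      omega
    have hτT' : τ ∉ T' := fun h => hBS (hcl τ h B hBF hτB)
    obtain ⟨p0, hp0⟩ : τ.Nonempty := by rw [← Finset.card_pos]; omega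
    let c : H := f A p0 * (f B p0)⁻¹
    let f' : Finset V → V → H := fun C => if C = B then (fun v => c * f B v) else f C
    have hf'B : f' B = fun v => c * f B v := by simp [f']
    have hf'n : ∀ C, C ≠ B → f' C = f C := fun C hC => by simp [f', hC]
    have hgood : ∀ C ∈ F, Good x C (f' C) := by
      intro C hC
      by_cases hCB : C = B
      · subst hCB
        rw [hf'B]
        exact (hf C hC).mul c
      · rw [hf'n C hCB]; exact hf C hC
    have hABp : ∀ p ∈ τ, f' A p = f' B p := by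
      intro p hp
      refine (hgood A hAF).eq (hgood B hBF) (hτA hp0) (hτB hp0) (hτA hp) (hτB hp) ?_
      rw [hf'B, hf'n A hAB]
      simp [c]
    refine ⟨insert B S, ?_, insert τ T', ?_, ?_, ?_, ?_, f', hgood, ?_⟩
    · exact Finset.insert_subset hBF hSF
    · exact Finset.insert_subset hτT hT'
    · rw [Finset.card_insert_of_notMem hBS, hSc]
    · rw [Finset.card_insert_of_notMem hτT', hTc]
    · intro τ' hτ' C hC hτC
      rw [Finset.mem_insert] at hτ'
      rcases hτ' with rfl | hτ'
      · rcases honly C hC hτC with rfl | rfl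
        · exact Finset.mem_insert_of_mem hAS
        · exact Finset.mem_insert_self _ _
      · exact Finset.mem_insert_of_mem (hcl τ' hτ' C hC hτC)
    · intro τ' hτ' C hC D hD hτC hτD p hp
      rw [Finset.mem_insert] at hτ'
      rcases hτ' with rfl | hτ'
      · rcases honly C hC hτC with rfl | rfl <;> rcases honly D hD hτD with rfl | rfl
        · rfl
        · exact hABp p hp
        · exact (hABp p hp).symm
        · rfl
      · have hCB : C ≠ B := by
          rintro rfl; exact hBS (hcl τ' hτ' C hC hτC)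
        have hDB : D ≠ B := by
          rintro rfl; exact hBS (hcl τ' hτ' D hD hτD)
        rw [hf'n C hCB, hf'n D hDB]
        exact hfT τ' hτ' C hC D hD hτC hτD p hp

theorem l2_aux (F T : Finset (Finset V)) (k : ℕ) (σ ρ : Fin k → Finset V) (hG : GD F T k σ ρ)
    (x : V → V → H) (hx : ∀ A ∈ F, Rel x A) :
    ∃ h : V → H, ∀ A ∈ F, ∀ a ∈ A, ∀ b ∈ A, x a b = (h a)⁻¹ * h b := by
  classical
  have hcardpos : 0 < F.card := Finset.card_pos.2 hG.ne
  obtain ⟨S, hSF, T', hT', hSc, hTc, hcl, f, hf, hfT'⟩ :=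
    tree_step x F T hG.pure hG.Tin hG.Tconn hx hG.ne (F.card - 1) (by omega)
  have hTT : T' = T := Finset.eq_of_subset_of_card_le hT' (by have := hG.Tcard; omega)
  subst hTT
  have hσ : ∀ n : ℕ, ∀ i : Fin k, (i : ℕ) = n → ∀ A ∈ F, ∀ B ∈ F, σ i ⊆ A → σ i ⊆ B →
      ∀ p ∈ σ i, f A p = f B p := by
    intro n
    induction n using Nat.strong_induction_on with
    | _ n ih =>
      intro i hi A hA B hB hσA hσB p hp
      have h1 : ∀ p ∈ ρ i, f A p = f B p := by
        refine same_eq (hG.loc i A hA B hB hσA hσB) ?_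
        intro τ hτ C hC D hD hτC hτD q hq
        rw [Finset.mem_union] at hτ
        rcases hτ with hτ | hτ
        · exact hfT' τ hτ C hC D hD hτC hτD q hq
        · rw [Finset.mem_image] at hτ
          obtain ⟨j, hj, rfl⟩ := hτ
          rw [Finset.mem_filter] at hj
          exact ih j (by rw [← hi]; exact hj.2) j rfl C hC D hD hτC hτD q hq
      obtain ⟨q, hq⟩ : (ρ i).Nonempty := by
        rw [← Finset.card_pos, hG.ρc i]; norm_num
      have hqσ := hG.ρσ i hq
      exact (hf A hA).eq (hf B hB) (hσA hqσ) (hσB hqσ) (hσA hp) (hσB hp) (h1 q hq)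
  have hall : ∀ τ ∈ tets F 2, ∀ A ∈ F, ∀ B ∈ F, τ ⊆ A → τ ⊆ B → ∀ p ∈ τ, f A p = f B p := by
    intro τ hτ A hA B hB hτA hτB p hp
    rcases hG.all τ hτ with h | ⟨i, rfl⟩
    · exact hfT' τ h A hA B hB hτA hτB p hp
    · exact hσ i i rfl A hA B hB hτA hτB p hp
  have hv : ∀ A ∈ F, ∀ B ∈ F, ∀ v, v ∈ A → v ∈ B → f A v = f B v := by
    intro A hA B hB v hvA hvB
    exact same_eq (hG.res {v} (Finset.singleton_nonempty v) A hA B hB
      (by simpa using hvA) (by simpa using hvB)) hall v (Finset.mem_singleton_self v)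
  refine ⟨fun v => if hv : ∃ A ∈ F, v ∈ A then f hv.choose v else 1, ?_⟩
  have hh : ∀ A ∈ F, ∀ v ∈ A,
      (if hv : ∃ A ∈ F, v ∈ A then f hv.choose v else 1) = f A v := by
    intro A hA v hvA
    have hex : ∃ A ∈ F, v ∈ A := ⟨A, hA, hvA⟩
    rw [dif_pos hex]
    exact hv _ hex.choose_spec.1 A hA v hex.choose_spec.2 hvA
  intro A hA a ha b hb
  show x a b = (if hv : ∃ A ∈ F, a ∈ A then f hv.choose a else 1)⁻¹ *
    (if hv : ∃ A ∈ F, b ∈ A then f hv.choose b else 1)
  rw [hh A hA a ha, hh A hA b hb]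
  exact hf A hA a ha b hb

end

theorem l2 : StmL2.{u, v} := by
  intro V _ F T k σ ρ hG H _ x hx
  exact l2_aux F T k σ ρ hG x hx

end Pool.Agent.K3h51.LCM
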