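import Mathlib
import Pool.Agent.K3h88.LCM.Stm

/-!
# Brick L4: reverse collapse
-/

set_option autoImplicit false

namespace Pool.Agent.K3h51.LCM

open Finset Pool.Agent.K3h88.LCM

universe u v

theorem mem_faces {V : Type u} [DecidableEq V] {F : Finset (Finset V)} {s : Finset V} :
    s ∈ faces F ↔ s.Nonempty ∧ ∃ A ∈ F, s ⊆ A := by
  rw [faces, Finset.mem_filter, Finset.mem_biUnion]
  simp only [Finset.mem_powerset]
  tauto

section

variable {V : Type u} [DecidableEq V] {H : Type v} [Group H]

theorem l4_aux (F T : Finset (Finset V)) (k : ℕ) (σ ρ : Fin k → Finset V) (hG : GD F T k σ ρ)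
    (hord : ∀ i j, ρ j ⊆ σ i → i ≤ j)
    (x : V → V → H) (hx : ∀ t ∈ faces F, t.card = 3 → (∀ j, ρ j ≠ t) → Rel x t) :
    ∀ A ∈ F, Rel x A := by
  classical
  have main : ∀ m : ℕ, ∀ j : Fin k, k - (j : ℕ) = m → Rel x (ρ j) := by
    intro m
    induction m using Nat.strong_induction_on with
    | _ m ih =>
      intro j hj
      have hσj := hG.σin j
      rw [tets, Finset.mem_filter] at hσj
      obtain ⟨hσF, hσ4, -⟩ := hσj
      obtain ⟨-, A, hA, hσA⟩ := mem_faces.1 hσF
      -- the fourth vertex
      obtain ⟨d, hdσ, hdρ⟩ : ∃ d ∈ σ j, d ∉ ρ j := by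
        by_contra hcon
        push Not at hcon
        have := Finset.card_le_card (fun y hy => hcon y hy : σ j ⊆ ρ j)
        rw [hG.ρc j] at this
        omega
      have tri : ∀ a ∈ ρ j, ∀ b ∈ ρ j, a ≠ b → Rel x {d, a, b} := by
        intro a ha b hb hab
        have hda : d ≠ a := by rintro rfl; exact hdρ ha
        have hdb : d ≠ b := by rintro rfl; exact hdρ hb
        have hc3 : ({d, a, b} : Finset V).card = 3 := by
          rw [Finset.card_insert_of_notMem, Finset.card_insert_of_notMem, Finset.card_singleton]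
          · simpa using hab
          · simp [hda, hdb]
        have hsub : ({d, a, b} : Finset V) ⊆ σ j := by
          intro y hy
          simp only [Finset.mem_insert, Finset.mem_singleton] at hy
          rcases hy with rfl | rfl | rfl
          · exact hdσ
          · exact hG.ρσ j ha
          · exact hG.ρσ j hb
        by_cases hex : ∃ i, ρ i = {d, a, b}
        · obtain ⟨i, hi⟩ := hex
          have h1 : j ≤ i := hord j i (by rw [hi]; exact hsub)
          have h2 : i ≠ j := by
            rintro rfl
            apply hdρ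
            rw [hi]; simp
          have h3 : (j : ℕ) < i := lt_of_le_of_ne h1 (fun h => h2 (Fin.ext h.symm))
          rw [← hi]
          exact ih (k - (i : ℕ)) (by have := i.2; omega) i rfl
        · push Not at hex
          exact hx _ (mem_faces.2 ⟨⟨d, by simp⟩, A, hA, hsub.trans hσA⟩) hc3 hex
      have tri' : ∀ a ∈ ρ j, ∀ b ∈ ρ j, ∃ t, d ∈ t ∧ a ∈ t ∧ b ∈ t ∧ Rel x t := by
        intro a ha b hb
        by_cases hab : a = b
        · subst hab
          obtain ⟨c, hc, hca⟩ : ∃ c ∈ ρ j, c ≠ a := by
            apply Finset.exists_mem_ne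
            rw [hG.ρc j]; norm_num
          exact ⟨{d, a, c}, by simp, by simp, by simp, tri a ha c hc (Ne.symm hca)⟩
        · exact ⟨{d, a, b}, by simp, by simp, by simp, tri a ha b hb hab⟩
      intro a ha b hb c hc
      obtain ⟨t1, hd1, ha1, hb1, ht1⟩ := tri' a ha b hb
      obtain ⟨t2, hd2, hb2, hc2, ht2⟩ := tri' b hb c hc
      obtain ⟨t3, hd3, ha3, hc3, ht3⟩ := tri' a ha c hc
      have e1 := ht1 a ha1 d hd1 b hb1
      have e2 := ht2 b hb2 d hd2 c hc2
      have e3 := ht3 a ha3 d hd3 c hc3
      have e4 := ht1 d hd1 b hb1 d hd1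
      have e5 : x d d = 1 := by
        have := ht1 d hd1 d hd1 d hd1
        exact mul_eq_left.1 this
      rw [e5] at e4
      rw [← e1, ← e2, ← e3]
      calc x a d * x d b * (x b d * x d c) = x a d * (x d b * x b d) * x d c := by group
        _ = x a d * x d c := by rw [e4, mul_one]
  have hall : ∀ t ∈ faces F, t.card = 3 → Rel x t := by
    intro t ht h3
    by_cases hex : ∃ i, ρ i = t
    · obtain ⟨i, hi⟩ := hex
      rw [← hi]
      exact main _ i rfl
    · push Not at hex
      exact hx t ht h3 hex
  intro A hA a ha b hb c hc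
  have hsub : ({a, b, c} : Finset V) ⊆ A := by
    intro y hy
    simp only [Finset.mem_insert, Finset.mem_singleton] at hy
    rcases hy with rfl | rfl | rfl
    · exact ha
    · exact hb
    · exact hc
  obtain ⟨t, ht1, ht2, ht3⟩ := Finset.exists_subsuperset_card_eq hsub
    (n := 3) (Finset.card_le_three) (by rw [hG.pure A hA]; norm_num)
  have htF : t ∈ faces F := mem_faces.2 ⟨⟨a, ht1 (by simp)⟩, A, hA, ht2⟩
  exact hall t htF ht3 a (ht1 (by simp)) b (ht1 (by simp)) c (ht1 (by simp))

end

theorem l4 : StmL4.{u, v} := by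
  intro V _ F T k σ ρ hG hord H _ x hx
  exact l4_aux F T k σ ρ hG hord x hx

end Pool.Agent.K3h51.LCM
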