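import Mathlib
import Pool.Agent.K3h51.LCM.L4

/-!
# Brick L5: counting
-/

set_option autoImplicit false

namespace Pool.Agent.K3h51.LCM

open Finset Pool.Agent.K3h88.LCM

universe u v

section

variable {V : Type u} [DecidableEq V]

theorem mem_tets {F : Finset (Finset V)} {m : ℕ} {τ : Finset V} :
    τ ∈ tets F m ↔ τ ∈ faces F ∧ τ.card = 4 ∧ (F.filter (fun A => τ ⊆ A)).card = m := by
  rw [tets, Finset.mem_filter]

theorem faces_tets_subset (F : Finset (Finset V)) (m : ℕ) : faces (tets F m) ⊆ faces F := by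
  intro s hs
  obtain ⟨hne, τ, hτ, hsτ⟩ := mem_faces.1 hs
  obtain ⟨-, A, hA, hτA⟩ := mem_faces.1 (mem_tets.1 hτ).1
  exact mem_faces.2 ⟨hne, A, hA, hsτ.trans hτA⟩

theorem inn5 (F : Finset (Finset V)) (hpure : ∀ A ∈ F, A.card = 5) : inn F 5 = F := by
  ext s
  rw [inn, Finset.mem_filter, Finset.mem_sdiff]
  constructor
  · rintro ⟨⟨hs, -⟩, h5⟩
    obtain ⟨-, A, hA, hsA⟩ := mem_faces.1 hs
    have : s = A := Finset.eq_of_subset_of_card_le hsA (by rw [hpure A hA, h5])
    rw [this]; exact hA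
  · intro hs
    refine ⟨⟨mem_faces.2 ⟨?_, s, hs, subset_rfl⟩, ?_⟩, hpure s hs⟩
    · rw [← Finset.card_pos, hpure s hs]; norm_num
    · intro h
      obtain ⟨-, τ, hτ, hsτ⟩ := mem_faces.1 h
      have := Finset.card_le_card hsτ
      rw [hpure s hs, (mem_tets.1 hτ).2.1] at this
      omega

theorem inn4 (F : Finset (Finset V))
    (htwo : ∀ τ : Finset V, τ.card = 4 → (F.filter (fun A => τ ⊆ A)).card ≤ 2) :
    inn F 4 = tets F 2 := by
  ext s
  rw [inn, Finset.mem_filter, Finset.mem_sdiff, mem_tets]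
  constructor
  · rintro ⟨⟨hs, hns⟩, h4⟩
    refine ⟨hs, h4, ?_⟩
    have h2 := htwo s h4
    have h1 : 0 < (F.filter (fun A => s ⊆ A)).card := by
      obtain ⟨-, A, hA, hsA⟩ := mem_faces.1 hs
      exact Finset.card_pos.2 ⟨A, Finset.mem_filter.2 ⟨hA, hsA⟩⟩
    by_contra hcon
    apply hns
    refine mem_faces.2 ⟨(mem_faces.1 hs).1, s, mem_tets.2 ⟨hs, h4, by omega⟩, subset_rfl⟩
  · rintro ⟨hs, h4, h2⟩
    refine ⟨⟨hs, fun h => ?_⟩, h4⟩
    obtain ⟨-, τ, hτ, hsτ⟩ := mem_faces.1 h
    obtain ⟨-, hτ4, hτ1⟩ := mem_tets.1 hτ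
    have : s = τ := Finset.eq_of_subset_of_card_le hsτ (by rw [hτ4, h4])
    rw [← this] at hτ1
    omega

theorem inn0 (F : Finset (Finset V)) : inn F 0 = ∅ := by
  rw [Finset.eq_empty_iff_forall_notMem]
  intro s hs
  rw [inn, Finset.mem_filter, Finset.mem_sdiff] at hs
  have := (mem_faces.1 hs.1.1).1
  rw [← Finset.card_pos] at this
  omega

theorem l5_aux (F T : Finset (Finset V)) (k : ℕ) (σ ρ : Fin k → Finset V) (hG : GD F T k σ ρ)
    (he : euler F - euler (tets F 1) = 1) :
    (inn F 1).card + (inn F 3).card = (inn F 2).card + k := by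
  classical
  have h1 : euler F - euler (tets F 1) =
      ∑ s ∈ faces F \ faces (tets F 1), (-1 : ℤ) ^ (s.card + 1) := by
    rw [euler, euler, ← Finset.sum_sdiff (faces_tets_subset F 1)]
    ring
  have hmap : ∀ s ∈ faces F \ faces (tets F 1), s.card ∈ Finset.range 6 := by
    intro s hs
    rw [Finset.mem_sdiff] at hs
    obtain ⟨-, A, hA, hsA⟩ := mem_faces.1 hs.1
    have := Finset.card_le_card hsA
    rw [hG.pure A hA] at this
    rw [Finset.mem_range]; omega
  have h2 : ∑ s ∈ faces F \ faces (tets F 1), (-1 : ℤ) ^ (s.card + 1) =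
      ∑ m ∈ Finset.range 6, ((inn F m).card : ℤ) * (-1) ^ (m + 1) := by
    rw [← Finset.sum_fiberwise_of_maps_to hmap]
    refine Finset.sum_congr rfl fun m _ => ?_
    rw [inn, ← nsmul_eq_mul, ← Finset.sum_const]
    refine Finset.sum_congr rfl fun s hs => ?_
    rw [(Finset.mem_filter.1 hs).2]
  have hT2 : (tets F 2).card = T.card + k := by
    have hun : tets F 2 = T ∪ (univ : Finset (Fin k)).image σ := by
      ext τ
      rw [Finset.mem_union, Finset.mem_image]
      constructor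
      · intro h
        rcases hG.all τ h with h | ⟨i, hi⟩
        · exact Or.inl h
        · exact Or.inr ⟨i, Finset.mem_univ _, hi⟩
      · rintro (h | ⟨i, -, rfl⟩)
        · exact hG.Tin h
        · exact hG.σin i
    rw [hun, Finset.card_union_of_disjoint, Finset.card_image_of_injective _ hG.σinj,
      Finset.card_univ, Fintype.card_fin]
    rw [Finset.disjoint_left]
    intro τ hτ hτ'
    rw [Finset.mem_image] at hτ'
    obtain ⟨i, -, rfl⟩ := hτ'
    exact hG.σT i hτ
  have h5 : (inn F 5).card = F.card := by rw [inn5 F hG.pure]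
  have h4 : (inn F 4).card = T.card + k := by rw [inn4 F hG.two, hT2]
  have h0 : (inn F 0).card = 0 := by rw [inn0]; rfl
  have hTc := hG.Tcard
  rw [h1, h2] at he
  simp only [Finset.sum_range_succ, Finset.sum_range_zero] at he
  rw [h5, h4, h0] at he
  push_cast at he
  have hTc' : (T.card : ℤ) + 1 = F.card := by exact_mod_cast hTc
  have : ((inn F 1).card : ℤ) + (inn F 3).card = (inn F 2).card + k := by
    norm_num at he
    linarith
  exact_mod_cast this

end

theorem l5 : StmL5.{u} := by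
  intro V _ F T k σ ρ hG he
  exact l5_aux F T k σ ρ hG he

end Pool.Agent.K3h51.LCM
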