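import Mathlib
import Pool.Agent.K3h51.LCM.L5

/-!
# Brick L6: parents
-/

set_option autoImplicit false

namespace Pool.Agent.K3h51.LCM

open Finset Pool.Agent.K3h88.LCM

universe u v

section

variable {V : Type u} [DecidableEq V]

/-- there is an edge path of length `n` from `v` to the boundary -/
def reach (F : Finset (Finset V)) : ℕ → V → Prop
  | 0, v => {v} ∈ faces (tets F 1)
  | (n + 1), v => ∃ w, w ≠ v ∧ {v, w} ∈ faces F ∧ reach F n w

theorem reach_facet {F : Finset (Finset V)} {C : Finset V} (hC : C ∈ F) {q : V} (hq : q ∈ C)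
    {n : ℕ} (hn : reach F n q) : ∀ w ∈ C, ∃ m, reach F m w := by
  intro w hw
  by_cases h : w = q
  · subst h; exact ⟨n, hn⟩
  · refine ⟨n + 1, q, Ne.symm h, mem_faces.2 ⟨⟨w, by simp⟩, C, hC, ?_⟩, hn⟩
    intro y hy
    simp only [Finset.mem_insert, Finset.mem_singleton] at hy
    rcases hy with rfl | rfl
    · exact hw
    · exact hq

theorem l6_aux (F T : Finset (Finset V)) (k : ℕ) (σ ρ : Fin k → Finset V) (hG : GD F T k σ ρ)
    (hne : (tets F 1).Nonempty) :
    ∃ (p : V → V) (d : V → ℕ), ∀ v : V, {v} ∈ faces F → {v} ∉ faces (tets F 1) →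
      {v, p v} ∈ faces F ∧ p v ≠ v ∧ d (p v) < d v := by
  classical
  obtain ⟨τ, hτ⟩ := hne
  obtain ⟨hτF, hτ4, -⟩ := mem_tets.1 hτ
  obtain ⟨⟨u, hu⟩, B, hB, hτB⟩ := mem_faces.1 hτF
  have hu0 : reach F 0 u := mem_faces.2 ⟨⟨u, by simp⟩, τ, hτ, by simpa using hu⟩
  have hreach : ∀ v : V, {v} ∈ faces F → ∃ n, reach F n v := by
    intro v hv
    obtain ⟨-, A, hA, hvA⟩ := mem_faces.1 hv
    have hchain := hG.Tconn B hB A hA
    have : ∀ w ∈ A, ∃ m, reach F m w := by
      clear hvA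
      induction hchain with
      | refl => exact reach_facet hB (hτB hu) hu0
      | @tail C D _ hCD ih =>
        obtain ⟨hC, hD, τ', hτ', -, hτC, hτD⟩ := hCD
        obtain ⟨⟨q, hq⟩, -⟩ := mem_faces.1 (mem_tets.1 (hG.Tin hτ')).1
        obtain ⟨m, hm⟩ := ih hC q (hτC hq)
        exact reach_facet hD (hτD hq) hm
    exact this v (by simpa using hvA)
  let d : V → ℕ := fun v => sInf {n | reach F n v}
  have hd : ∀ v : V, ∃ w : V, {v} ∈ faces F → {v} ∉ faces (tets F 1) →
      {v, w} ∈ faces F ∧ w ≠ v ∧ d w < d v := by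
    intro v
    by_cases h1 : {v} ∈ faces F
    · by_cases h2 : {v} ∈ faces (tets F 1)
      · exact ⟨v, fun _ h => absurd h2 h⟩
      · obtain ⟨n, hn⟩ := hreach v h1
        have hmem : d v ∈ {n | reach F n v} := Nat.sInf_mem ⟨n, hn⟩
        have hmem' : reach F (d v) v := hmem
        rcases hdv : d v with _ | m
        · rw [hdv] at hmem'
          exact absurd hmem' h2
        · rw [hdv] at hmem'
          obtain ⟨w, hw1, hw2, hw3⟩ := hmem'
          refine ⟨w, fun _ _ => ⟨hw2, hw1, ?_⟩⟩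
          have : d w ≤ m := Nat.sInf_le hw3
          omega
    · exact ⟨v, fun h => absurd h h1⟩
  choose p hp using hd
  exact ⟨p, d, hp⟩

end

theorem l6 : StmL6.{u} := by
  intro V _ F T k σ ρ hG hne
  exact l6_aux F T k σ ρ hG hne

end Pool.Agent.K3h51.LCM
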